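import Mathlib
import Pool.Agent.H574.Thin.Rational

/-!
# MP_f2148a_nt: Hall's conjecture for the solutions with a rational isogeny

To a solution of `y ^ 2 = x ^ 3 + k`, `k ≠ 0`, belongs the elliptic curve
`E : Y ^ 2 = X ^ 3 - 3 x X + 2 y` with the discriminant `-1728 k` and the `j`-invariant
`-1728 x ^ 3 / k`. Let `N` be `2, 3, 5, 7` or `13`, and let `E` have a rational isogeny of degree `N`,
that is, let the `j`-invariant be a value of the function `J N` describing the map `X₀ (N) → X (1)`.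
(For the other primes only finitely many rational numbers are `j`-invariants of curves with a rational
isogeny of degree `N`, by Mazur's theorem, and then `|x| ^ 3` is at most a constant times `|k|`.)

1. `|x| ^ (3 / (N + 1)) ≤ C |k|`.
2. For `N = 2, 3, 5` one has Hall's bound `max (|x|, |y|) ≤ C |k| ^ 3`.
3. For `N = 2, 3, 5` the exponent `3 / (N + 1)` in 1, that is `1`, `3 / 4`, `1 / 2`, is the best possible.
   So for `N = 5` the exponent in 2 is the best possible, too: the solutions with a rational isogeny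
   of degree `5` contain those found by Danilov.
-/

set_option autoImplicit false

namespace Pool.Agent.Results.MP_f2148a_nt.FreyCurvesWithIsogenies

open Polynomial Pool.Agent.H574.Thin

/-- The elliptic curve `Y ^ 2 = X ^ 3 - 3 x X + 2 y`. -/
def E (x y : ℤ) : WeierstrassCurve ℚ := ⟨0, 0, 0, -3 * x, 2 * y⟩

/-- The numerators of the `j`-maps of the curves `X₀ (N)`. -/
def num : ℕ → ℚ → ℚ
  | 2, t => (t + 16) ^ 3
  | 3, t => (t + 27) * (t + 3) ^ 3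
  | 5, t => (t ^ 2 + 10 * t + 5) ^ 3
  | 7, t => (t ^ 2 + 13 * t + 49) * (t ^ 2 + 5 * t + 1) ^ 3
  | 13, t => (t ^ 2 + 5 * t + 13) * (t ^ 4 + 7 * t ^ 3 + 20 * t ^ 2 + 19 * t + 1) ^ 3
  | _, _ => 0

/-- The `j`-map `X₀ (N) → X (1)` for `N = 2, 3, 5, 7, 13`, with respect to a parameter `t` of the curve
`X₀ (N)` of genus zero; the cusps are `t = 0, ∞`. -/
def J (N : ℕ) (t : ℚ) : ℚ := num N t / t

/-- The `j`-invariant `c₄ ^ 3 / Δ` of `E x y` is the image of a rational point of `X₀ (N)` different from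
the cusps. -/
def HasIsogeny (N : ℕ) (x y : ℤ) : Prop :=
  ∃ t : ℚ, t ≠ 0 ∧ (E x y).c₄ ^ 3 = J N t * (E x y).Δ

theorem c₄_E (x y : ℤ) : (E x y).c₄ = 144 * x := by
  simp only [WeierstrassCurve.c₄, WeierstrassCurve.b₂, WeierstrassCurve.b₄, E]; ring

theorem Δ_E (x y : ℤ) : (E x y).Δ = -1728 * (y ^ 2 - x ^ 3) := by
  simp only [WeierstrassCurve.Δ, WeierstrassCurve.b₂, WeierstrassCurve.b₄, WeierstrassCurve.b₆,
    WeierstrassCurve.b₈, E]; ring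

theorem bound_of {A : ℤ[X]} {N : ℕ} (hN : 1 ≤ N) (hA : A.Monic) (hdeg : A.natDegree = N + 1)
    (h0 : A.coeff 0 ≠ 0) (hJ : ∀ t : ℚ, aeval t A = num N t) :
    ∃ C : ℝ, 1 ≤ C ∧ ∀ x y k : ℤ, k ≠ 0 → y ^ 2 = x ^ 3 + k → HasIsogeny N x y →
      |(x : ℝ)| ^ (3 / ((N : ℝ) + 1)) ≤ C * |(k : ℝ)| := by
  obtain ⟨C, hC, h⟩ := monic_bound hN hA hdeg h0
  refine ⟨C, hC, ?_⟩
  rintro x y k hk hyk ⟨t, ht0, ht⟩
  refine h x k hk t ht0 ?_
  have hyk' : (y : ℚ) ^ 2 = x ^ 3 + k := by exact_mod_cast hyk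
  rw [c₄_E, Δ_E, J, hyk'] at ht
  rw [hJ]
  field_simp at ht
  linear_combination (-1 / 1728 : ℚ) * ht

theorem bound (N : ℕ) (hN : N ∈ ({2, 3, 5, 7, 13} : Finset ℕ)) :
    ∃ C : ℝ, 1 ≤ C ∧ ∀ x y k : ℤ, k ≠ 0 → y ^ 2 = x ^ 3 + k → HasIsogeny N x y →
      |(x : ℝ)| ^ (3 / ((N : ℝ) + 1)) ≤ C * |(k : ℝ)| := by
  simp only [Finset.mem_insert, Finset.mem_singleton] at hN
  rcases hN with rfl | rfl | rfl | rfl | rfl
  · exact bound_of (A := ((X + 16) ^ 3 : ℤ[X])) (by norm_num) (by monicity!) (by compute_degree!)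
      (by simp [coeff_zero_eq_eval_zero]) (fun t => by simp [num, map_ofNat])
  · exact bound_of (A := ((X + 27) * (X + 3) ^ 3 : ℤ[X])) (by norm_num) (by monicity!)
      (by compute_degree!) (by simp [coeff_zero_eq_eval_zero]) (fun t => by simp [num, map_ofNat])
  · exact bound_of (A := ((X ^ 2 + 10 * X + 5) ^ 3 : ℤ[X])) (by norm_num) (by monicity!)
      (by compute_degree!) (by simp [coeff_zero_eq_eval_zero]) (fun t => by simp [num, map_ofNat])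
  · exact bound_of (A := ((X ^ 2 + 13 * X + 49) * (X ^ 2 + 5 * X + 1) ^ 3 : ℤ[X])) (by norm_num)
      (by monicity!) (by compute_degree!) (by simp [coeff_zero_eq_eval_zero])
      (fun t => by simp [num, map_ofNat])
  · exact bound_of (A := ((X ^ 2 + 5 * X + 13) *
      (X ^ 4 + 7 * X ^ 3 + 20 * X ^ 2 + 19 * X + 1) ^ 3 : ℤ[X])) (by norm_num)
      (by monicity!) (by compute_degree!) (by simp [coeff_zero_eq_eval_zero])
      (fun t => by simp [num, map_ofNat])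

/-- Hall's bound -/
theorem hall (N : ℕ) (hN : N ∈ ({2, 3, 5} : Finset ℕ)) :
    ∃ C : ℝ, 0 < C ∧ ∀ x y k : ℤ, k ≠ 0 → y ^ 2 = x ^ 3 + k → HasIsogeny N x y →
      max |(x : ℝ)| |(y : ℝ)| ≤ C * |(k : ℝ)| ^ 3 := by
  have hN' : N ∈ ({2, 3, 5, 7, 13} : Finset ℕ) := by
    simp only [Finset.mem_insert, Finset.mem_singleton] at hN ⊢
    omega
  have hN5 : (N : ℝ) ≤ 5 := by
    have : N ≤ 5 := by
      simp only [Finset.mem_insert, Finset.mem_singleton] at hN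
      omega
    exact_mod_cast this
  obtain ⟨C, hC, h⟩ := bound N hN'
  refine ⟨C ^ 3 + 1, by positivity, fun x y k hk hyk hiso => ?_⟩
  have h1 := h x y k hk hyk hiso
  have hk1 : (1 : ℝ) ≤ |(k : ℝ)| := by
    have : (1 : ℤ) ≤ |k| := Int.one_le_abs hk
    exact_mod_cast this
  obtain ⟨K, hK⟩ : ∃ K, K = |(k : ℝ)| := ⟨_, rfl⟩
  rw [← hK] at h1 hk1 ⊢
  have hCK : 1 ≤ C * K := by nlinarith
  have hx2 : |(x : ℝ)| ≤ (C * K) ^ 2 := by
    rcases eq_or_ne x 0 with hx0 | hx0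
    · rw [hx0, Int.cast_zero, abs_zero]; positivity
    have hx1 : (1 : ℝ) ≤ |(x : ℝ)| := by
      have : (1 : ℤ) ≤ |x| := Int.one_le_abs hx0
      exact_mod_cast this
    have h2 : |(x : ℝ)| ^ ((1 : ℝ) / 2) ≤ C * K := by
      refine le_trans (Real.rpow_le_rpow_of_exponent_le hx1 ?_) h1
      rw [div_le_div_iff₀ (by norm_num) (by positivity)]
      linarith
    have h3 := pow_le_pow_left₀ (by positivity) h2 2
    rw [← Real.rpow_natCast, ← Real.rpow_mul (by positivity)] at h3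
    norm_num at h3
    exact h3
  have hx3 : |(x : ℝ)| ^ 3 ≤ (C * K) ^ 6 := by
    calc |(x : ℝ)| ^ 3 ≤ ((C * K) ^ 2) ^ 3 := pow_le_pow_left₀ (abs_nonneg _) hx2 3
      _ = _ := by ring
  have hK3 : K ^ 3 * C ^ 3 + K ^ 3 = (C ^ 3 + 1) * K ^ 3 := by ring
  have hK13 : 1 ≤ K ^ 3 := one_le_pow₀ hk1
  have hC13 : 1 ≤ C ^ 3 := one_le_pow₀ hC
  refine max_le ?_ ?_
  · calc |(x : ℝ)| ≤ (C * K) ^ 2 := hx2
      _ ≤ (C * K) ^ 3 := pow_le_pow_right₀ hCK (by norm_num)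
      _ = C ^ 3 * K ^ 3 := by ring
      _ ≤ (C ^ 3 + 1) * K ^ 3 := by nlinarith
  · have hyR : (y : ℝ) ^ 2 = (x : ℝ) ^ 3 + k := by exact_mod_cast hyk
    have h4 : |(y : ℝ)| ^ 2 ≤ ((C ^ 3 + 1) * K ^ 3) ^ 2 := by
      rw [sq_abs, hyR]
      have h5 : (x : ℝ) ^ 3 ≤ |(x : ℝ)| ^ 3 := by rw [← abs_pow]; exact le_abs_self _
      have h6 : (k : ℝ) ≤ K := by rw [hK]; exact le_abs_self _
      have h7 : K ≤ (K ^ 3) ^ 2 := by
        rw [← pow_mul]; exact le_self_pow₀ hk1 (by norm_num)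
      have h8 : 0 ≤ C ^ 3 * (K ^ 3) ^ 2 := by positivity
      calc (x : ℝ) ^ 3 + k ≤ (C * K) ^ 6 + (K ^ 3) ^ 2 := by linarith
        _ = (C ^ 3) ^ 2 * (K ^ 3) ^ 2 + (K ^ 3) ^ 2 := by ring
        _ ≤ (C ^ 3) ^ 2 * (K ^ 3) ^ 2 + 2 * (C ^ 3 * (K ^ 3) ^ 2) + (K ^ 3) ^ 2 := by linarith
        _ = _ := by ring
    exact le_of_pow_le_pow_left₀ (by norm_num) (by positivity) h4

/-- a Pell equation -/
theorem pell (M : ℤ) : ∃ L v : ℤ, M ≤ L ∧ L ^ 2 + 4 = 5 * v ^ 2 ∧ 0 < v := by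
  have h : ∀ n : ℕ, ∃ L v : ℤ, (n : ℤ) ≤ L ∧ L ^ 2 + 4 = 5 * v ^ 2 ∧ 0 < v := by
    intro n
    induction n with
    | zero => exact ⟨1, 1, by norm_num, by norm_num, by norm_num⟩
    | succ n ih =>
      obtain ⟨L, v, h1, h2, h3⟩ := ih
      refine ⟨9 * L + 20 * v, 4 * L + 9 * v, by push_cast; omega, ?_, by omega⟩
      linear_combination h2
  obtain ⟨L, v, h1, h2, h3⟩ := h M.toNat
  exact ⟨L, v, (Int.self_le_toNat M).trans h1, h2, h3⟩

/-- optimality -/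
theorem sharp (N : ℕ) (hN : N ∈ ({2, 3, 5} : Finset ℕ)) (M : ℝ) :
    ∃ x y k : ℤ, k ≠ 0 ∧ y ^ 2 = x ^ 3 + k ∧ HasIsogeny N x y ∧ M ≤ |(x : ℝ)| ∧
      |(k : ℝ)| ≤ 10 ^ 6 * |(x : ℝ)| ^ (3 / ((N : ℝ) + 1)) := by
  obtain ⟨m, hm⟩ := exists_nat_gt M
  obtain ⟨n, hn⟩ : ∃ n : ℤ, n = m + 100 := ⟨_, rfl⟩
  have hn100 : 100 ≤ n := by omega
  have hMn : M ≤ (n : ℝ) := by rw [hn]; push_cast; linarith
  have hnR : (100 : ℝ) ≤ n := by exact_mod_cast hn100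
  simp only [Finset.mem_insert, Finset.mem_singleton] at hN
  rcases hN with rfl | rfl | rfl
  · refine ⟨n ^ 2 - 48, n * (n ^ 2 - 72), -1728 * (n ^ 2 - 64), ?_, by ring, ?_, ?_, ?_⟩
    · have : 64 < n ^ 2 := by nlinarith
      omega
    · have h64 : ((n : ℚ) ^ 2 - 64) ≠ 0 := by
        have h1 : n ^ 2 - 64 ≠ 0 := by
          have : 64 < n ^ 2 := by nlinarith
          omega
        exact_mod_cast h1
      refine ⟨(n : ℚ) ^ 2 - 64, h64, ?_⟩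
      rw [c₄_E, Δ_E, J, num]
      push_cast
      field_simp
      ring
    · push_cast
      rw [abs_of_nonneg (by nlinarith)]
      nlinarith
    · push_cast
      rw [abs_of_nonneg (by nlinarith : (0 : ℝ) ≤ (n : ℝ) ^ 2 - 48), abs_mul,
        abs_of_nonneg (by nlinarith : (0 : ℝ) ≤ (n : ℝ) ^ 2 - 64)]
      norm_num
      nlinarith
  · refine ⟨n * (n ^ 3 - 24), (n ^ 3 - 27) ^ 2 + 18 * (n ^ 3 - 27) - 27, -1728 * (n ^ 3 - 27),
      ?_, by ring, ?_, ?_, ?_⟩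
    · have : 27 < n ^ 3 := by nlinarith [sq_nonneg n]
      omega
    · have h64 : ((n : ℚ) ^ 3 - 27) ≠ 0 := by
        have h1 : n ^ 3 - 27 ≠ 0 := by
          have : 27 < n ^ 3 := by nlinarith [sq_nonneg n]
          omega
        exact_mod_cast h1
      refine ⟨(n : ℚ) ^ 3 - 27, h64, ?_⟩
      rw [c₄_E, Δ_E, J, num]
      push_cast
      field_simp
      ring
    · push_cast
      have h1 : (25 : ℝ) ≤ (n : ℝ) ^ 3 := by nlinarith [sq_nonneg (n : ℝ)]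
      rw [abs_of_nonneg (by nlinarith)]
      nlinarith
    · push_cast
      have h1 : (100 : ℝ) ^ 3 ≤ (n : ℝ) ^ 3 := pow_le_pow_left₀ (by norm_num) hnR 3
      rw [abs_of_nonneg (mul_nonneg (by linarith) (by linarith) : (0 : ℝ) ≤ (n : ℝ) * ((n : ℝ) ^ 3 - 24)),
        abs_mul, abs_of_nonneg (by linarith : (0 : ℝ) ≤ (n : ℝ) ^ 3 - 27)]
      have h2 : ((n : ℝ) / 2) ^ (4 : ℝ) ≤ (n : ℝ) * ((n : ℝ) ^ 3 - 24) := by
        have e1 : ((n : ℝ) / 2) ^ (4 : ℝ) = ((n : ℝ) / 2) ^ (4 : ℕ) := by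
          exact_mod_cast Real.rpow_natCast ((n : ℝ) / 2) 4
        rw [e1]
        nlinarith
      have h3 : ((n : ℝ) / 2) ^ 3 ≤ ((n : ℝ) * ((n : ℝ) ^ 3 - 24)) ^ ((3 : ℝ) / (((3 : ℕ) : ℝ) + 1)) := by
        calc ((n : ℝ) / 2) ^ 3 = (((n : ℝ) / 2) ^ (4 : ℝ)) ^ ((3 : ℝ) / (((3 : ℕ) : ℝ) + 1)) := by
              rw [← Real.rpow_mul (by linarith)]
              norm_num
          _ ≤ _ := Real.rpow_le_rpow (by positivity) h2 (by positivity)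
      norm_num at h3 ⊢
      linarith
  · obtain ⟨L, v, hL, hLv, hv⟩ := pell (n + 11)
    obtain ⟨t, ht⟩ : ∃ t, t = L - 11 := ⟨_, rfl⟩
    have htn : n ≤ t := by omega
    have hLt : L = t + 11 := by omega
    rw [hLt] at hLv
    have htR : (n : ℝ) ≤ t := by exact_mod_cast htn
    refine ⟨5 * (t ^ 2 + 10 * t + 5), 25 * v * (t ^ 2 + 4 * t - 1), -216000 * t, by omega, ?_, ?_, ?_, ?_⟩
    · linear_combination (-125) * (t ^ 2 + 4 * t - 1) ^ 2 * hLv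
    · have ht0 : (t : ℚ) ≠ 0 := by
        have : t ≠ 0 := by omega
        exact_mod_cast this
      refine ⟨(t : ℚ), ht0, ?_⟩
      have hLvQ : ((t : ℚ) + 11) ^ 2 + 4 = 5 * v ^ 2 := by exact_mod_cast hLv
      rw [c₄_E, Δ_E, J, num]
      push_cast
      field_simp
      linear_combination (-216000) * ((t : ℚ) ^ 2 + 10 * t + 5) ^ 3 * ((t : ℚ) ^ 2 + 4 * t - 1) ^ 2 * hLvQ
    · push_cast
      rw [abs_of_nonneg (by nlinarith)]
      nlinarith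
    · push_cast
      have h0 : (0 : ℝ) ≤ 5 * ((t : ℝ) ^ 2 + 10 * t + 5) := by nlinarith
      rw [abs_of_nonneg h0, abs_mul, abs_of_nonneg (by linarith : (0 : ℝ) ≤ (t : ℝ))]
      have h2 : (t : ℝ) ≤ (5 * ((t : ℝ) ^ 2 + 10 * t + 5)) ^ ((3 : ℝ) / (((5 : ℕ) : ℝ) + 1)) := by
        calc (t : ℝ) = ((t : ℝ) ^ (2 : ℝ)) ^ ((3 : ℝ) / (((5 : ℕ) : ℝ) + 1)) := by
              rw [← Real.rpow_mul (by linarith)]
              norm_num
          _ ≤ _ := by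
            refine Real.rpow_le_rpow (Real.rpow_nonneg (by linarith) _) ?_ (by positivity)
            have e1 : (t : ℝ) ^ (2 : ℝ) = (t : ℝ) ^ (2 : ℕ) := by
              exact_mod_cast Real.rpow_natCast (t : ℝ) 2
            rw [e1]
            nlinarith
      norm_num at h2 ⊢
      linarith

theorem result :
    (∀ N ∈ ({2, 3, 5, 7, 13} : Finset ℕ), ∃ C : ℝ, ∀ x y k : ℤ, k ≠ 0 → y ^ 2 = x ^ 3 + k →
      HasIsogeny N x y → |(x : ℝ)| ^ (3 / ((N : ℝ) + 1)) ≤ C * |(k : ℝ)|) ∧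
    (∀ N ∈ ({2, 3, 5} : Finset ℕ), ∃ C : ℝ, ∀ x y k : ℤ, k ≠ 0 → y ^ 2 = x ^ 3 + k →
      HasIsogeny N x y → max |(x : ℝ)| |(y : ℝ)| ≤ C * |(k : ℝ)| ^ 3) ∧
    (∀ N ∈ ({2, 3, 5} : Finset ℕ), ∃ C : ℝ, ∀ M : ℝ, ∃ x y k : ℤ, k ≠ 0 ∧ y ^ 2 = x ^ 3 + k ∧
      HasIsogeny N x y ∧ M ≤ |(x : ℝ)| ∧ |(k : ℝ)| ≤ C * |(x : ℝ)| ^ (3 / ((N : ℝ) + 1))) := by
  refine ⟨fun N hN => ?_, fun N hN => ?_, fun N hN => ⟨10 ^ 6, fun M => sharp N hN M⟩⟩
  · obtain ⟨C, _, h⟩ := bound N hN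
    exact ⟨C, h⟩
  · obtain ⟨C, _, h⟩ := hall N hN
    exact ⟨C, h⟩

end Pool.Agent.Results.MP_f2148a_nt.FreyCurvesWithIsogenies
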