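import Pool.Agent.H574.Gap

/-!
# MP_f2148a_nt: near-solutions of `y ^ 2 = x ^ 3` repel each other

For a positive integer `x` consider the distances `|y ^ 2 - x ^ 3|`, `y` an integer. Hall's question
asks whether they are all `0` or at least a constant times `x ^ (1/2)`. The theorem shows that this holds
at all but at most one point of each interval `[N, N + N ^ (1/4)]`, in the much stronger form
`|y ^ 2 - x ^ 3| ≥ N ^ (3/4) / 100` (and with `y ^ 2 = x ^ 3` counted as an exception).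

1. Let `p, q, x, x'` be positive integers with `p ^ 2 x < q ^ 2 x'`, and let the difference
   `D = q ^ 2 x' - p ^ 2 x` satisfy `D ^ 4 ≤ p ^ 2 x`. Then, for all integers `y, y'`,
   `p ^ 2 x ≤ 100 D max (p ^ 6 |y ^ 2 - x ^ 3|, q ^ 6 |y' ^ 2 - x' ^ 3|)`.
   (For `p = q = 1`: `x ≤ 100 (x' - x) max (|y ^ 2 - x ^ 3|, |y' ^ 2 - x' ^ 3|)` if
   `0 < x' - x ≤ x ^ (1/4)`.)
2. The order of magnitude in 1 is right: for all `w ≥ 2` the points `x = 4 w ^ 2 - 1` and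
   `x' = 4 w ^ 2 + 1` have distances `|y ^ 2 - x ^ 3|`, `|y' ^ 2 - x' ^ 3|` less than `x`.
3. For all `N > 0`, at most one integer `x` with `N ≤ x ≤ N + N ^ (1/4)` has an integer `y` with
   `|y ^ 2 - x ^ 3| < N ^ (3/4) / 100`.
4. For every real `C > 0` there is `N₀` such that, for all `N ≥ N₀`, at most one integer `x` with
   `N ≤ x ≤ N + N ^ (1/4)` is the abscissa of an integer solution of `y ^ 2 = x ^ 3 + k` with
   `max (|x|, |y|) > C |k| ^ 3`.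
-/

set_option autoImplicit false

namespace Pool.Agent.Results.MP_f2148a_nt.RepulsionOfViolations

open Pool.Agent.H574.Gap

theorem scaled {p q x x' y y' K : ℤ} (hp : 0 < p) (hx : 0 < x)
    (hxx : p ^ 2 * x < q ^ 2 * x') (h4 : (q ^ 2 * x' - p ^ 2 * x) ^ 4 ≤ p ^ 2 * x)
    (hk : p ^ 6 * |y ^ 2 - x ^ 3| ≤ K) (hk' : q ^ 6 * |y' ^ 2 - x' ^ 3| ≤ K) :
    p ^ 2 * x ≤ 100 * (q ^ 2 * x' - p ^ 2 * x) * K := by
  have h1 : ∀ r z t : ℤ, |(r ^ 3 * t) ^ 2 - (r ^ 2 * z) ^ 3| = r ^ 6 * |t ^ 2 - z ^ 3| := by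
    intro r z t
    have h2 : (r ^ 3 * t) ^ 2 - (r ^ 2 * z) ^ 3 = r ^ 6 * (t ^ 2 - z ^ 3) := by ring
    have h3 : (0 : ℤ) ≤ r ^ 6 := by positivity
    rw [h2, abs_mul, abs_of_nonneg h3]
  exact main (y := p ^ 3 * y) (y' := q ^ 3 * y') (by positivity) hxx h4
    (by rw [h1]; exact hk) (by rw [h1]; exact hk')

theorem window_lt {N x x' y y' : ℤ} (hN : 0 < N) (hx : N ≤ x) (hxx : x < x')
    (hx4' : (x' - N) ^ 4 ≤ N) (hy : (100 * |y ^ 2 - x ^ 3|) ^ 4 < N ^ 3)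
    (hy' : (100 * |y' ^ 2 - x' ^ 3|) ^ 4 < N ^ 3) : False := by
  have h4 : (x' - x) ^ 4 ≤ x := by
    refine le_trans (pow_le_pow_left₀ (by omega) (by omega : x' - x ≤ x' - N) 4) ?_
    exact hx4'.trans hx
  obtain ⟨K, hK⟩ : ∃ K, K = max |y ^ 2 - x ^ 3| |y' ^ 2 - x' ^ 3| := ⟨_, rfl⟩
  have hK4 : (100 * K) ^ 4 < N ^ 3 := by
    rcases max_choice |y ^ 2 - x ^ 3| |y' ^ 2 - x' ^ 3| with h | h
    · rw [hK, h]; exact hy
    · rw [hK, h]; exact hy'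
  have hK0 : 0 ≤ K := by rw [hK]; exact le_trans (abs_nonneg _) (le_max_left _ _)
  have h1 := main (x := x) (x' := x') (y := y) (y' := y') (K := K) (by omega) hxx h4
    (by rw [hK]; exact le_max_left _ _) (by rw [hK]; exact le_max_right _ _)
  have h2 : N ≤ (x' - x) * (100 * K) := by linarith
  have h3 : N ^ 4 ≤ ((x' - x) * (100 * K)) ^ 4 := pow_le_pow_left₀ hN.le h2 4
  rw [mul_pow] at h3
  have h5 : (x' - x) ^ 4 ≤ N :=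
    le_trans (pow_le_pow_left₀ (by omega) (by omega : x' - x ≤ x' - N) 4) hx4'
  have h6 : (x' - x) ^ 4 * (100 * K) ^ 4 ≤ N * (100 * K) ^ 4 :=
    mul_le_mul_of_nonneg_right h5 (by positivity)
  have h7 : N * (100 * K) ^ 4 < N * N ^ 3 := mul_lt_mul_of_pos_left hK4 hN
  have h8 : N * N ^ 3 = N ^ 4 := by ring
  omega

theorem window {N : ℤ} (hN : 0 < N) :
    {x : ℤ | N ≤ x ∧ (x - N) ^ 4 ≤ N ∧ ∃ y : ℤ, (100 * |y ^ 2 - x ^ 3|) ^ 4 < N ^ 3}.Subsingleton := by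
  rintro x ⟨hx, hx4, y, hy⟩ x' ⟨hx', hx4', y', hy'⟩
  rcases lt_trichotomy x x' with h | h | h
  · exact (window_lt hN hx h hx4' hy hy').elim
  · exact h
  · exact (window_lt hN hx' h hx4 hy' hy).elim

/-- a violation of Hall's inequality is a near-solution in the sense of `window` -/
theorem violation {C : ℝ} (hC : 0 < C) :
    ∃ N₀ : ℤ, 0 < N₀ ∧ ∀ N : ℤ, N₀ ≤ N → ∀ x y : ℤ, N ≤ x → (x - N) ^ 4 ≤ N →
      C * (|y ^ 2 - x ^ 3| : ℤ) ^ 3 < (max |x| |y| : ℤ) → (100 * |y ^ 2 - x ^ 3|) ^ 4 < N ^ 3 := by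
  obtain ⟨M, hM⟩ := exists_nat_gt (max 1 (6 * 100 ^ 3 / C))
  have hM1 : 1 < (M : ℝ) := lt_of_le_of_lt (le_max_left _ _) hM
  have hMC : 6 * 100 ^ 3 / C < M := lt_of_le_of_lt (le_max_right _ _) hM
  have hMC' : 6 * 100 ^ 3 < M * C := by rwa [div_lt_iff₀ hC] at hMC
  have hM1' : 1 < M := by exact_mod_cast hM1
  refine ⟨(M : ℤ) ^ 4, by positivity, fun N hN x y hx hx4 hv => ?_⟩
  have hN0 : 0 < N := lt_of_lt_of_le (by positivity) hN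
  have hN1 : 1 ≤ N := hN0
  by_contra hcon
  push Not at hcon
  obtain ⟨κ, hκ⟩ : ∃ κ, κ = |y ^ 2 - x ^ 3| := ⟨_, rfl⟩
  rw [← hκ] at hv hcon
  have hκ0 : 0 ≤ κ := by rw [hκ]; exact abs_nonneg _
  have hx2 : x ≤ 2 * N := by
    by_contra h
    push Not at h
    have h1 : N < x - N := by omega
    have h2 : (x - N) ≤ (x - N) ^ 4 := le_self_pow₀ (by omega) (by norm_num)
    omega
  have hx0 : 0 < x := by omega
  -- `κ` is at least `N ^ (3/4) / 100`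
  have hκ1 : 1 ≤ κ := by
    by_contra h
    have : κ = 0 := by omega
    rw [this] at hcon
    have h3 : 0 < N ^ 3 := by positivity
    simp at hcon
    omega
  have hyκ : y ^ 2 ≤ x ^ 3 + κ := by
    have := le_abs_self (y ^ 2 - x ^ 3)
    rw [← hκ] at this
    linarith
  have hκR : (1 : ℝ) ≤ κ := by exact_mod_cast hκ1
  have hNR : (1 : ℝ) ≤ N := by exact_mod_cast hN1
  have hNM : (M : ℝ) ^ 4 ≤ N := by exact_mod_cast hN
  obtain ⟨s, hs⟩ : ∃ s : ℝ, s = (N : ℝ) ^ ((1 : ℝ) / 4) := ⟨_, rfl⟩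
  have hs0 : 0 < s := by rw [hs]; positivity
  have hs4 : s ^ 4 = N := by
    rw [hs, ← Real.rpow_natCast, ← Real.rpow_mul (by positivity)]
    norm_num
  have hsM : (M : ℝ) ≤ s := by
    have : (M : ℝ) ^ 4 ≤ s ^ 4 := by rw [hs4]; exact hNM
    exact le_of_pow_le_pow_left₀ (by norm_num) hs0.le this
  have hs1 : 1 ≤ s := le_trans hM1.le hsM
  have hconR : (s ^ 3) ^ 4 ≤ (100 * (κ : ℝ)) ^ 4 := by
    have h1 : ((N : ℝ)) ^ 3 ≤ (100 * (κ : ℝ)) ^ 4 := by exact_mod_cast hcon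
    calc (s ^ 3) ^ 4 = (s ^ 4) ^ 3 := by ring
      _ = (N : ℝ) ^ 3 := by rw [hs4]
      _ ≤ _ := h1
  have hs3 : s ^ 3 ≤ 100 * (κ : ℝ) := le_of_pow_le_pow_left₀ (by norm_num) (by positivity) hconR
  have hxs : (x : ℝ) ≤ 2 * s ^ 4 := by rw [hs4]; exact_mod_cast hx2
  have hx0R : (0 : ℝ) < x := by exact_mod_cast hx0
  have hyR : (y : ℝ) ^ 2 ≤ (x : ℝ) ^ 3 + κ := by exact_mod_cast hyκ
  have hy3 : |(y : ℝ)| ≤ 3 * s ^ 6 + κ := by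
    have h1 : |(y : ℝ)| ^ 2 ≤ (3 * s ^ 6 + κ) ^ 2 := by
      rw [sq_abs]
      have h2 : (x : ℝ) ^ 3 ≤ (2 * s ^ 4) ^ 3 := pow_le_pow_left₀ hx0R.le hxs 3
      have h3 : (1 : ℝ) ≤ s ^ 6 := one_le_pow₀ hs1
      have h4 : (κ : ℝ) ≤ s ^ 6 * κ := le_mul_of_one_le_left (by positivity) h3
      have h5 : 0 ≤ s ^ 12 := by positivity
      have h6 : 0 ≤ (κ : ℝ) ^ 2 := by positivity
      have h7 : (0 : ℝ) ≤ s ^ 6 * κ := by positivity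
      calc (y : ℝ) ^ 2 ≤ (2 * s ^ 4) ^ 3 + κ := by linarith
        _ = 8 * s ^ 12 + κ := by ring
        _ ≤ 9 * s ^ 12 + 6 * (s ^ 6 * κ) + (κ : ℝ) ^ 2 := by linarith
        _ = (3 * s ^ 6 + κ) ^ 2 := by ring
    exact le_of_pow_le_pow_left₀ (by norm_num) (by positivity) h1
  have hmax : ((max |x| |y| : ℤ) : ℝ) ≤ 3 * s ^ 6 + κ := by
    push_cast
    refine max_le ?_ hy3
    rw [abs_of_pos hx0R]
    have h1 : s ^ 4 ≤ s ^ 6 := pow_le_pow_right₀ hs1 (by norm_num)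
    have h2 : 0 ≤ s ^ 6 := by positivity
    linarith
  have hfin : C * (κ : ℝ) ^ 3 < 3 * s ^ 6 + κ := lt_of_lt_of_le hv hmax
  have hs9 : (s ^ 3) ^ 3 ≤ (100 * (κ : ℝ)) ^ 3 := pow_le_pow_left₀ (by positivity) hs3 3
  have h1 : (κ : ℝ) * s ^ 3 ≤ 100 * (κ : ℝ) ^ 3 := by
    have h2 : (κ : ℝ) * s ^ 3 ≤ κ * (100 * κ) := mul_le_mul_of_nonneg_left hs3 (by positivity)
    have h3 : (κ : ℝ) ^ 2 ≤ (κ : ℝ) ^ 3 := pow_le_pow_right₀ hκR (by norm_num)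
    nlinarith
  have h2 : C * s ^ 3 * (κ : ℝ) ^ 3 < 6 * 100 ^ 3 * (κ : ℝ) ^ 3 := by
    have h3 : (C * (κ : ℝ) ^ 3) * s ^ 3 < (3 * s ^ 6 + κ) * s ^ 3 :=
      mul_lt_mul_of_pos_right hfin (by positivity)
    have h4 : (0 : ℝ) < (κ : ℝ) ^ 3 := by positivity
    nlinarith
  have h3 : C * s ^ 3 < 6 * 100 ^ 3 := lt_of_mul_lt_mul_right h2 (by positivity)
  have h4 : (M : ℝ) ≤ s ^ 3 := hsM.trans (le_self_pow₀ hs1 (by norm_num))
  have h5 : M * C ≤ s ^ 3 * C := mul_le_mul_of_nonneg_right h4 hC.le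
  linarith

theorem result :
    (∀ p q x x' y y' K : ℤ, 0 < p → 0 < q → 0 < x → 0 < x' → p ^ 2 * x < q ^ 2 * x' →
      (q ^ 2 * x' - p ^ 2 * x) ^ 4 ≤ p ^ 2 * x →
      p ^ 6 * |y ^ 2 - x ^ 3| ≤ K → q ^ 6 * |y' ^ 2 - x' ^ 3| ≤ K →
        p ^ 2 * x ≤ 100 * (q ^ 2 * x' - p ^ 2 * x) * K) ∧
    (∀ w : ℤ, 2 ≤ w → ∃ x x' y y' : ℤ, x = 4 * w ^ 2 - 1 ∧ x' = 4 * w ^ 2 + 1 ∧
      |y ^ 2 - x ^ 3| < x ∧ |y' ^ 2 - x' ^ 3| < x) ∧
    (∀ N : ℤ, 0 < N →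
      {x : ℤ | N ≤ x ∧ (x - N) ^ 4 ≤ N ∧
        ∃ y : ℤ, (100 * |y ^ 2 - x ^ 3|) ^ 4 < N ^ 3}.Subsingleton) ∧
    (∀ C : ℝ, 0 < C → ∃ N₀ : ℤ, ∀ N : ℤ, N₀ ≤ N →
      {x : ℤ | N ≤ x ∧ (x - N) ^ 4 ≤ N ∧ ∃ y k : ℤ, y ^ 2 = x ^ 3 + k ∧
        C * |(k : ℝ)| ^ 3 < max |(x : ℝ)| |(y : ℝ)|}.Subsingleton) := by
  refine ⟨?_, ?_, ?_, ?_⟩
  · intro p q x x' y y' K hp _ hx _ hxx h4 hk hk'
    exact scaled hp hx hxx h4 hk hk'
  · intro w hw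
    refine ⟨4 * w ^ 2 - 1, 4 * w ^ 2 + 1, 8 * w ^ 3 - 3 * w, 8 * w ^ 3 + 3 * w, rfl, rfl, ?_, ?_⟩
    · have h1 : (8 * w ^ 3 - 3 * w) ^ 2 - (4 * w ^ 2 - 1) ^ 3 = -(3 * w ^ 2 - 1) := by ring
      rw [h1, abs_neg, abs_lt]
      constructor <;> nlinarith
    · have h1 : (8 * w ^ 3 + 3 * w) ^ 2 - (4 * w ^ 2 + 1) ^ 3 = -(3 * w ^ 2 + 1) := by ring
      rw [h1, abs_neg, abs_lt]
      constructor <;> nlinarith
  · intro N hN
    exact window hN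
  · intro C hC
    obtain ⟨N₀, hN₀, h⟩ := violation hC
    refine ⟨N₀, fun N hN => ?_⟩
    refine (window (N := N) (by omega)).anti ?_
    rintro x ⟨hx, hx4, y, k, hk, hv⟩
    refine ⟨hx, hx4, y, h N hN x y hx hx4 ?_⟩
    have h1 : y ^ 2 - x ^ 3 = k := by rw [hk]; ring
    rw [h1]
    push_cast
    exact hv

end Pool.Agent.Results.MP_f2148a_nt.RepulsionOfViolations
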